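import Pool.Agent.H2.FI2

set_option autoImplicit false

namespace Pool.Agent.Results.MP_b23a2c_al.Finite

open CategoryTheory Pool.Agent.H2.FIMod

universe u v

theorem result (k : Type u) [Field k] (I : FI ⥤ ModuleCat.{v} k) (hI : Injective I)
    (tf : TorsionFree I) (ind : Indec I) (a : FI) : FiniteDimensional k (I.obj a) :=
  main I tf ind a

end Pool.Agent.Results.MP_b23a2c_al.Finite
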